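import Mathlib
import Pool.Agent.Lib.MP_e3911d_co.Spectral

set_option autoImplicit false

open Pool.Agent.MP_e3911d_co

namespace Pool.Agent.Lib.MP_e3911d_co.Parked.Pseudorandom

/-- Let `G` be a graph on `n ≥ 2` vertices and `p, β > 0`, and suppose that either `G` is
`(p, β)`-bijumbled, or `G` is `d`-regular with `d = p n` and every eigenvalue of the adjacency
matrix with an eigenvector orthogonal to the constants has absolute value at most `β`.
If `p n ≥ 50 β log₂ n` and `G` has no clique on `m` vertices for some `m ≤ n` with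
`30 β m ≤ p n`, then `G` has no semi-transitive orientation. -/
theorem result {V : Type*} [Fintype V] [DecidableEq V] (G : SimpleGraph V) [DecidableRel G.Adj]
    (p β : ℝ) (hp : 0 < p) (hβ : 0 < β)
    (hG : (∀ S T : Finset V, Disjoint S T →
          |(((S ×ˢ T).filter (fun q => G.Adj q.1 q.2)).card : ℝ) - p * (S.card * T.card)| ≤
            β * Real.sqrt (S.card * T.card)) ∨
        (∃ d : ℕ, G.IsRegularOfDegree d ∧ (d : ℝ) = p * Fintype.card V ∧
          ∀ (μ : ℝ) (f : V → ℝ), f ≠ 0 → ∑ v, f v = 0 →
            (G.adjMatrix ℝ).mulVec f = μ • f → |μ| ≤ β))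
    (hn : 2 ≤ Fintype.card V)
    (hK : 50 * β * Real.logb 2 (Fintype.card V) ≤ p * Fintype.card V)
    (m : ℕ) (hmn : m ≤ Fintype.card V) (hm : 30 * β * m ≤ p * Fintype.card V)
    (hfree : G.CliqueFree m) :
    ¬ ∃ D : V → V → Prop,
        (∀ u v, D u v → G.Adj u v) ∧
        (∀ u v, G.Adj u v → (D u v ∨ D v u)) ∧
        (∀ u v, D u v → ¬ D v u) ∧
        (∀ v, ¬ Relation.TransGen D v v) ∧
        (∀ k : ℕ, ∀ q : ℕ → V,
          (∀ i j, i ≤ k → j ≤ k → q i = q j → i = j) →
          (∀ i, i < k → D (q i) (q (i + 1))) →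
          D (q 0) (q k) →
          ∀ i j, i < j → j ≤ k → D (q i) (q j)) := by
  have hJ : Jumbled G p β := by
    rcases hG with h | ⟨d, hd, hdp, h⟩
    · intro S T hST
      have := h S T hST
      unfold edges
      convert this using 6
    · have h1 := jumbled_of_spectral G d hd β hβ.le h
      have hn0 : (0 : ℝ) < Fintype.card V := by
        have : (2 : ℝ) ≤ Fintype.card V := by exact_mod_cast hn
        linarith
      have h2 : (d : ℝ) / Fintype.card V = p := by
        rw [hdp]
        field_simp
      rwa [h2] at h1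
  exact not_semiTransitive_of_jumbled hp hβ hJ hn hK m hmn hm hfree

end Pool.Agent.Lib.MP_e3911d_co.Parked.Pseudorandom
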